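import Pool.Agent.Lib.MP_fb3619_al.Iface

/-! SIMN (3.3): the `sim`-classes are the orbits of `Nn v x` and `Nn w x`. -/

universe u

namespace Pool.Agent.FourGp.H94

open Equiv

/-- Numerical form of the axioms. -/
theorem num {P : Type u} {g : Inc P} (h : g.IsGeo) : ∃ t : P → ℕ, (∀ x, t x < 3) ∧
    (∀ x y, g.st x y ↔ t x = t y) ∧ (∀ x y, g.perp x y → t x ≠ t y) ∧
    (∀ x y, t x ≠ t y → g.perp x (g.cr x y)) ∧ (∀ x y, t x ≠ t y → g.perp y (g.cr x y)) ∧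
    (∀ x y z, t x ≠ t y → g.perp x z → g.perp y z → g.cr x y = z) := by
  obtain ⟨t, ht, hs⟩ := h.label
  refine ⟨t, ht, hs, fun x y hp e => h.perp_st _ _ hp ((hs _ _).2 e),
    fun x y e => h.cr_l _ _ fun e' => e ((hs _ _).1 e'),
    fun x y e => h.cr_r _ _ fun e' => e ((hs _ _).1 e'),
    fun x y z e h1 h2 => (h.uniq _ _ _ (fun e' => e ((hs _ _).1 e')) h1 h2).symm⟩

/-- The orbit relation. -/
def Or {P : Type u} (g : Inc P) (v w x y y' : P) : Prop :=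
  ∃ φ ∈ g.Nn v x, ∃ ψ ∈ g.Nn w x, ψ.1 (φ.1 y) = y'

section

variable {P : Type u} {g : Inc P} {v w x : P}

theorem Or.refl (y : P) : Or g v w x y y := ⟨1, one_mem _, 1, one_mem _, rfl⟩

theorem Or.of_v {φ : Perm P × Perm P} (hφ : φ ∈ g.Nn v x) {y y' : P} (e : φ.1 y = y') :
    Or g v w x y y' := ⟨φ, hφ, 1, one_mem _, e⟩

theorem Or.of_w {φ : Perm P × Perm P} (hφ : φ ∈ g.Nn w x) {y y' : P} (e : φ.1 y = y') :
    Or g v w x y y' := ⟨1, one_mem _, φ, hφ, e⟩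

theorem Or.trans (hT : TcrsS.{u}) (h : g.IsGeo) (hv : g.perp v x) (hw : g.perp w x)
    (hvw : ¬ g.st v w) {y y' y'' : P} (hy : g.st y x) (h1 : Or g v w x y y')
    (h2 : Or g v w x y' y'') : Or g v w x y y'' := by
  obtain ⟨φ, hφ, ψ, hψ, rfl⟩ := h1
  obtain ⟨φ', hφ', ψ', hψ', rfl⟩ := h2
  refine ⟨φ' * φ, mul_mem hφ' hφ, ψ' * ψ, mul_mem hψ' hψ, ?_⟩
  have h3 : g.st (φ.1 y) x := h.st_trans _ _ _ (h.st_symm _ _ ((h.nn_col hφ).tp y)) hy
  have h4 := hT P g h v w x φ' ψ hv hw hvw (h.nn_tt hφ') (h.nn_tt hψ) _ h3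
  change ψ'.1 (ψ.1 (φ'.1 (φ.1 y))) = _
  rw [h4]

theorem Or.symm (hT : TcrsS.{u}) (h : g.IsGeo) (hv : g.perp v x) (hw : g.perp w x)
    (hvw : ¬ g.st v w) {y y' : P} (hy : g.st y' x) (h1 : Or g v w x y y') :
    Or g v w x y' y := by
  obtain ⟨φ, hφ, ψ, hψ, e⟩ := h1
  refine ⟨φ⁻¹, inv_mem hφ, ψ⁻¹, inv_mem hψ, ?_⟩
  have h4 := hT P g h v w x φ⁻¹ ψ⁻¹ hv hw hvw (h.nn_tt (inv_mem hφ)) (h.nn_tt (inv_mem hψ)) _ hy
  rw [← h4, ← e]
  change φ.1.symm (ψ.1.symm (ψ.1 (φ.1 y))) = y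
  rw [Equiv.symm_apply_apply, Equiv.symm_apply_apply]

/-- One elementary step. -/
theorem Or.step (hT : TcrsS.{u}) (hS : StepS.{u}) (h : g.IsGeo) (hL : g.LemF) (hv : g.perp v x)
    (hw : g.perp w x) (hvw : ¬ g.st v w) {y y' : P} (hy : g.st y x) (h1 : g.R1 y y') :
    Or g v w x y y' := by
  have hyy := h.R1_st h1
  obtain ⟨n, l, l', z, hny, hny', hyz, hly, hlz, hl'z, hl'y', hll', hln⟩ := h1
  obtain ⟨t, ht, hs, hp, hcl, hcr, hu⟩ := num h
  have sy := h.perp_symm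
  have T : ∀ {a b c : P}, g.st a x → Or g v w x a b → Or g v w x b c → Or g v w x a c :=
    fun ha h1 h2 => Or.trans hT h hv hw hvw ha h1 h2
  rw [hs] at hyz hll' hln hvw hyy
  have hy' := (hs _ _).1 hy
  have tv := hp _ _ hv
  have tw := hp _ _ hw
  have t1 := hp _ _ hny
  have t2 := hp _ _ hly
  have a1 := ht n; have a2 := ht l; have a3 := ht y; have a4 := ht v; have a5 := ht w
  have a6 := ht x
  have yv : t y ≠ t v := by omega
  have n1 := hcl y v yv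
  have n2 := hcr y v yv
  set n' := g.cr y v with hn'
  have n3 := hp _ _ n1
  have n4 := hp _ _ n2
  have a7 := ht n'
  have yw : t y' ≠ t w := by omega
  have m1 := hcl y' w yw
  have m2 := hcr y' w yw
  set n'' := g.cr y' w with hn''
  have m3 := hp _ _ m1
  have m4 := hp _ _ m2
  have a8 := ht n''
  have hnn : t n' ≠ t n'' := by omega
  have p1 := hcl n' n'' hnn
  have p2 := hcr n' n'' hnn
  set y1 := g.cr n' n'' with hy1
  have p3 := hp _ _ p1
  have p4 := hp _ _ p2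
  have a9 := ht y1
  have hnv : g.cr n' x = v := hu _ _ _ (by omega) (sy _ _ n2) (sy _ _ hv)
  have hnw : g.cr n'' x = w := hu _ _ _ (by omega) (sy _ _ m2) (sy _ _ hw)
  by_cases hc : t n = t w
  · have ln : t l' ≠ t n' := by omega
    have q1 := hcl l' n' ln
    have q2 := hcr l' n' ln
    set y2 := g.cr l' n' with hy2
    have q3 := hp _ _ q1
    have q4 := hp _ _ q2
    have a10 := ht y2
    obtain ⟨φ1, f1, e1⟩ := hS P g h hL n' l l' z y y2 x (sy _ _ n1) q2 ((hs _ _).2 hyz) hly hlz hl'z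
      q1 ((hs _ _).2 hll') (fun e => by rw [hs] at e; omega) hy
    obtain ⟨φ2, f2, e2⟩ := hS P g h hL n' l' n'' y' y2 y1 x q2 p1 ((hs _ _).2 (by omega)) q1 hl'y'
      (sy _ _ m1) p2 ((hs _ _).2 (by omega)) (fun e => by rw [hs] at e; omega)
      ((hs _ _).2 (by omega))
    obtain ⟨φ3, f3, e3⟩ := hS P g h hL n'' n' n y y1 y' x p2 (sy _ _ m1) ((hs _ _).2 (by omega))
      p1 (sy _ _ n1) hny hny' ((hs _ _).2 (by omega)) (fun e => by rw [hs] at e; omega)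
      ((hs _ _).2 (by omega))
    rw [hnv] at f1 f2
    rw [hnw] at f3
    exact T hy (T hy (Or.of_v f1 e1) (Or.of_v f2 e2)) (Or.of_w f3 e3)
  · have ln : t l ≠ t n'' := by omega
    have q1 := hcl l n'' ln
    have q2 := hcr l n'' ln
    set y2 := g.cr l n'' with hy2
    have q3 := hp _ _ q1
    have q4 := hp _ _ q2
    have a10 := ht y2
    obtain ⟨φ1, f1, e1⟩ := hS P g h hL n' n n'' y' y y1 x (sy _ _ n1) p1 ((hs _ _).2 hyy) hny hny'
      (sy _ _ m1) p2 ((hs _ _).2 (by omega)) (fun e => by rw [hs] at e; omega) hy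
    obtain ⟨φ2, f2, e2⟩ := hS P g h hL n'' n' l y y1 y2 x p2 q2 ((hs _ _).2 (by omega)) p1
      (sy _ _ n1) hly q1 ((hs _ _).2 (by omega)) (fun e => by rw [hs] at e; omega)
      ((hs _ _).2 (by omega))
    obtain ⟨φ3, f3, e3⟩ := hS P g h hL n'' l l' z y2 y' x q2 (sy _ _ m1) ((hs _ _).2 (by omega))
      q1 hlz hl'z hl'y' ((hs _ _).2 hll') (fun e => by rw [hs] at e; omega)
      ((hs _ _).2 (by omega))
    rw [hnv] at f1
    rw [hnw] at f2 f3
    exact T hy (T hy (Or.of_v f1 e1) (Or.of_w f2 e2)) (Or.of_w f3 e3)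

end

theorem simn.{v} (hT : TcrsS.{v}) (hS : StepS.{v}) : SimnS.{v} := by
  intro P g h hL v w x y y' hv hw hvw hy hyy
  change Or g v w x y y'
  induction hyy with
  | rel a b e => exact Or.step hT hS h hL hv hw hvw hy e
  | refl a => exact Or.refl a
  | symm a b e ih =>
    have ha : g.st a x := h.st_trans _ _ _ (h.sim_st e) hy
    exact Or.symm hT h hv hw hvw hy (ih ha)
  | trans a b c e f ih1 ih2 =>
    have hb : g.st b x := h.st_trans _ _ _ (h.st_symm _ _ (h.sim_st e)) hy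
    exact Or.trans hT h hv hw hvw hy (ih1 hy) (ih2 hb)

end Pool.Agent.FourGp.H94
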